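import Mathlib
import Pool.Agent.Y353.CH.Inf

set_option autoImplicit false

open Filter Topology

namespace Pool.Agent.Results.MP_2ab887_nt.CriterionQuadraticFamily

/-- The places of a function field `K` over `k`: the normalised discrete valuations of `K`
(written multiplicatively, with value group all of `ℤ`) that are trivial on `k`. -/
def Place (k K : Type) [Field k] [Field K] [Algebra (RatFunc k) K] : Type :=
  {v : Valuation K (WithZero (Multiplicative ℤ)) //
    Function.Surjective v ∧
      ∀ c : k, c ≠ 0 → v (algebraMap (RatFunc k) K (RatFunc.C c)) = 1}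

/-- The Weil height of the point `[x 0 : x 1]` of the projective line over a function field `K`
over an algebraically closed field `k` (so that all places have degree one):
the sum over all places of `log max (v (x 0), v (x 1))`. -/
noncomputable def weilHeight (k K : Type) [Field k] [Field K] [Algebra (RatFunc k) K]
    (x : Fin 2 → K) : ℝ :=
  ∑ᶠ v : Place k K, ((WithZero.log (max (v.1 (x 0)) (v.1 (x 1))) : ℤ) : ℝ)

/-- The action of the pair of binary forms `G 0, G 1` on homogeneous coordinates. -/
noncomputable def act {K : Type} [Field K] (G : Fin 2 → MvPolynomial (Fin 2) K)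
    (x : Fin 2 → K) : Fin 2 → K :=
  fun i => MvPolynomial.eval x (G i)

/-- The quadratic map `y ↦ t y + s - n / y` over the rational function field `k(t)`, as a pair of
binary quadratic forms: `[x : z] ↦ [t x² + s x z - n z² : x z]`. -/
noncomputable def quad (k : Type) [Field k] (s n : k) :
    Fin 2 → MvPolynomial (Fin 2) (RatFunc k) :=
  ![MvPolynomial.C RatFunc.X * MvPolynomial.X 0 ^ 2 +
      MvPolynomial.C (RatFunc.C s) * (MvPolynomial.X 0 * MvPolynomial.X 1) -
      MvPolynomial.C (RatFunc.C n) * MvPolynomial.X 1 ^ 2,
    MvPolynomial.X 0 * MvPolynomial.X 1]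

/-- The point `[x : z]` of the projective line over `k(t)` given by polynomials `x, z` with
coefficients in a subfield `F` of `k`. -/
noncomputable def point {F : Type} [Field F] (k : Type) [Field k] [Algebra F k]
    (x z : Polynomial F) : Fin 2 → RatFunc k :=
  ![algebraMap (Polynomial k) (RatFunc k) (x.map (algebraMap F k)),
    algebraMap (Polynomial k) (RatFunc k) (z.map (algebraMap F k))]

/-- The point `[w 0 : w 1]` of the projective line over `k(t)` reduces to the point at infinity
`[1 : 0]` at the place `t = 0` (the only place `v` with `v(t) < 1`). -/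
def ReducesToInfinity (k : Type) [Field k] (w : Fin 2 → RatFunc k) : Prop :=
  ∀ v : Place k (RatFunc k), v.1 RatFunc.X < 1 → v.1 (w 1) < v.1 (w 0)

open Pool.Agent.Y353.CH

lemma quad_homog (k : Type) [Field k] (s n : k) (i : Fin 2) :
    (quad k s n i).IsHomogeneous 2 := by
  have hX0 : (MvPolynomial.X 0 : MvPolynomial (Fin 2) (RatFunc k)).IsHomogeneous 1 :=
    MvPolynomial.isHomogeneous_X _ _
  have hX1 : (MvPolynomial.X 1 : MvPolynomial (Fin 2) (RatFunc k)).IsHomogeneous 1 :=
    MvPolynomial.isHomogeneous_X _ _
  have hC : ∀ a : RatFunc k, (MvPolynomial.C a : MvPolynomial (Fin 2) (RatFunc k)).IsHomogeneous 0 :=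
    fun a => MvPolynomial.isHomogeneous_C _ _
  fin_cases i
  · have := (((hC RatFunc.X).mul (hX0.pow 2)).add ((hC (RatFunc.C s)).mul (hX0.mul hX1))).sub
      ((hC (RatFunc.C n)).mul (hX1.pow 2))
    simpa [quad] using this
  · have := hX0.mul hX1
    simpa [quad] using this

lemma quad_nonsing (k : Type) [Field k] (s n : k) (hn : n ≠ 0)
    (y : Fin 2 → AlgebraicClosure (RatFunc k))
    (h : ∀ i, MvPolynomial.aeval y (quad k s n i) = 0) : y = 0 := by
  have h0 := h 0
  have h1 := h 1
  simp only [quad, Matrix.cons_val_zero, Matrix.cons_val_one, map_add, map_sub, map_mul, map_pow,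
    MvPolynomial.aeval_X, MvPolynomial.aeval_C] at h0 h1
  have hX : algebraMap (RatFunc k) (AlgebraicClosure (RatFunc k)) RatFunc.X ≠ 0 := by
    rw [Ne, FaithfulSMul.algebraMap_eq_zero_iff]
    exact RatFunc.X_ne_zero
  have hN : algebraMap (RatFunc k) (AlgebraicClosure (RatFunc k)) (RatFunc.C n) ≠ 0 := by
    rw [Ne, FaithfulSMul.algebraMap_eq_zero_iff]
    intro h'
    exact hn (by simpa using h')
  rcases mul_eq_zero.mp h1 with hy | hy
  · have hz : y 1 = 0 := by
      rw [hy] at h0
      have : algebraMap (RatFunc k) (AlgebraicClosure (RatFunc k)) (RatFunc.C n) * y 1 ^ 2 = 0 := by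
        linear_combination (-1 : AlgebraicClosure (RatFunc k)) * h0
      rcases mul_eq_zero.mp this with h' | h'
      · exact absurd h' hN
      · exact pow_eq_zero_iff (by norm_num) |>.mp h'
    funext i
    fin_cases i
    · exact hy
    · exact hz
  · have hz : y 0 = 0 := by
      rw [hy] at h0
      have : algebraMap (RatFunc k) (AlgebraicClosure (RatFunc k)) RatFunc.X * y 0 ^ 2 = 0 := by
        linear_combination h0
      rcases mul_eq_zero.mp this with h' | h'
      · exact absurd h' hX
      · exact pow_eq_zero_iff (by norm_num) |>.mp h'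
    funext i
    fin_cases i
    · exact hz
    · exact hy

section

variable {F : Type} [Field F] (k : Type) [Field k] [Algebra F k] (s n : F)

lemma act_vec (e : ℕ) (P : Polynomial F × Polynomial F) :
    act (quad k (algebraMap F k s) (algebraMap F k n)) (vec k e P) =
      vec k (2 * e + phi P) (step s n P) := by
  obtain ⟨e1, e2⟩ := step_eqs s n P
  have f1 : Polynomial.X ^ (2 * e + phi P) * (step s n P).1 =
      Polynomial.X * (Polynomial.X ^ e * P.1) ^ 2 +
        Polynomial.C s * ((Polynomial.X ^ e * P.1) * (Polynomial.X ^ e * P.2)) -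
        Polynomial.C n * (Polynomial.X ^ e * P.2) ^ 2 := by
    rw [pow_add, mul_assoc, ← e1]
    simp only [num, numF]
    ring
  have f2 : Polynomial.X ^ (2 * e + phi P) * (step s n P).2 =
      (Polynomial.X ^ e * P.1) * (Polynomial.X ^ e * P.2) := by
    rw [pow_add, mul_assoc, ← e2]
    simp only [den, denF]
    ring
  funext i
  fin_cases i
  · have h := congrArg (emb (F := F) (k := k)) f1
    rw [map_sub, map_add, map_mul emb Polynomial.X, map_mul emb (Polynomial.C s),
      map_mul emb (Polynomial.C n), map_pow, map_pow, map_mul emb (Polynomial.X ^ e * P.1),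
      emb_X, emb_C, emb_C] at h
    show MvPolynomial.eval (vec k e P) (quad k (algebraMap F k s) (algebraMap F k n) 0) =
      emb (Polynomial.X ^ (2 * e + phi P) * (step s n P).1)
    rw [h]
    simp [quad, vec]
  · have h := congrArg (emb (F := F) (k := k)) f2
    rw [map_mul emb (Polynomial.X ^ e * P.1)] at h
    show MvPolynomial.eval (vec k e P) (quad k (algebraMap F k s) (algebraMap F k n) 1) =
      emb (Polynomial.X ^ (2 * e + phi P) * (step s n P).2)
    rw [h]
    simp [quad, vec]

/-- the exponents of the common factors -/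
noncomputable def ee (P : Polynomial F × Polynomial F) (e : ℕ) : ℕ → ℕ
  | 0 => e
  | m + 1 => 2 * ee P e m + phi (orb s n P m)

lemma iterate_vec (e : ℕ) (P : Polynomial F × Polynomial F) (m : ℕ) :
    (act (quad k (algebraMap F k s) (algebraMap F k n)))^[m] (vec k e P) =
      vec k (ee s n P e m) (orb s n P m) := by
  induction m with
  | zero => rfl
  | succ m ih =>
    rw [Function.iterate_succ_apply', ih, act_vec, orb_succ]
    rfl

lemma point_eq (x z : Polynomial F) : point k x z = vec k 0 (x, z) := by
  funext i
  fin_cases i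
  · simp [point, vec, emb_apply]
  · simp [point, vec, emb_apply]

end


lemma reduces_iff {F : Type} [Field F] (k : Type) [Field k] [Algebra F k] (e : ℕ)
    (P : Polynomial F × Polynomial F) (hP : IsCoprime P.1 P.2) :
    ReducesToInfinity k (vec k e P) ↔ phi P = 1 := by
  have h1 : ReducesToInfinity k (vec k e P) ↔ P.2.coeff 0 = 0 := by
    rw [← inf_iff (k := k) e P hP]
    constructor
    · intro h v hs hc hX
      exact h ⟨v, hs, hc⟩ hX
    · intro h v hX
      exact h v.1 v.2.1 v.2.2 hX
  rw [h1]
  unfold phi
  split_ifs with h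
  · simp [h]
  · simp [h]

/-- the canonical height for coordinates over a subfield `F` of `k` -/
theorem main {F : Type} [Field F] (k : Type) [Field k] [Algebra F k] (s n : F) (hn : n ≠ 0)
    (x z : Polynomial F) (hxz : IsCoprime x z) (hx : x ≠ 0) (hz : z ≠ 0) :
    ∃ L : ℝ, Tendsto (fun m : ℕ => weilHeight k (RatFunc k)
          ((act (quad k (algebraMap F k s) (algebraMap F k n)))^[m] (point k x z)) / 2 ^ m)
          atTop (𝓝 L) ∧
      (Irrational L ↔ ∀ m, ∃ j, phi (orb s n (x, z) (m + j)) = 1) ∧
      (¬ Irrational L ↔ ¬ ∀ m, ∃ j, phi (orb s n (x, z) (m + j)) = 1) := by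
  obtain ⟨L, hL, h1, h2⟩ := degree_limit s n hn (x, z) hxz hx hz
  refine ⟨L, ?_, h1, h2⟩
  rw [← tendsto_add_atTop_iff_nat 1]
  refine hL.congr ?_
  intro m
  congr 1
  rw [Function.iterate_succ_apply, point_eq, act_vec, iterate_vec]
  have h3 := height_vec (F := F) (k := k)
    (ee s n (step s n (x, z)) (2 * 0 + phi (x, z)) m) (orb s n (step s n (x, z)) m)
    (orb_coprime s n hn _ (step_coprime s n hn (x, z) hxz) m)
    (good_orb s n _ (good_first s n hn (x, z) hx hz) m).1
  exact h3.symm

/-- **Theorem.** (A) Let `k` be an algebraically closed field (of any characteristic), `s, n ∈ k`,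
`n ≠ 0`, and `f` the quadratic map `y ↦ t y + s - n / y` over `k(t)`. The canonical height of a
point `P = [x : z]` of the projective line over `k(t)` is rational if and only if `P` is `0` or
infinity or only finitely many iterates of `P` reduce to infinity at the place `t = 0`.
(B) For every finite field `F` there are `s, n ∈ F`, `n ≠ 0`, such that for every algebraically
closed field `k` containing `F` the canonical height of every `F(t)`-rational point other than `0`
and infinity is irrational. -/
theorem result :
    (∀ (k : Type) [Field k] [IsAlgClosed k] (s n : k), n ≠ 0 →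
      (∀ i, (quad k s n i).IsHomogeneous 2) ∧
      (∀ y : Fin 2 → AlgebraicClosure (RatFunc k),
        (∀ i, MvPolynomial.aeval y (quad k s n i) = 0) → y = 0) ∧
      ∀ x z : Polynomial k, IsCoprime x z →
        ∃ L : ℝ, Tendsto (fun m : ℕ => weilHeight k (RatFunc k)
            ((act (quad k s n))^[m] (point k x z)) / 2 ^ m) atTop (𝓝 L) ∧
          ((∃ q : ℚ, (q : ℝ) = L) ↔
            x = 0 ∨ z = 0 ∨
              {m : ℕ | ReducesToInfinity k ((act (quad k s n))^[m] (point k x z))}.Finite)) ∧
    (∀ (F : Type) [Field F] [Finite F], ∃ s n : F, n ≠ 0 ∧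
      ∀ (k : Type) [Field k] [IsAlgClosed k] [Algebra F k],
      ∀ x z : Polynomial F, IsCoprime x z → x ≠ 0 → z ≠ 0 →
        ∃ L : ℝ, Tendsto (fun m : ℕ => weilHeight k (RatFunc k)
          ((act (quad k (algebraMap F k s) (algebraMap F k n)))^[m] (point k x z)) / 2 ^ m)
          atTop (𝓝 L) ∧ Irrational L) := by
  constructor
  · intro k _ _ s n hn
    refine ⟨fun i => quad_homog k _ _ i, fun y hy => quad_nonsing k _ _ hn y hy, ?_⟩
    intro x z hxz
    by_cases h0 : x = 0 ∨ z = 0
    · obtain ⟨c, hc, hstep⟩ := step_exceptional s n hn (x, z) hxz h0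
      refine ⟨0, ?_, ?_⟩
      · rw [← tendsto_add_atTop_iff_nat 1]
        refine tendsto_const_nhds.congr ?_
        intro m
        have e1 : (act (quad k s n))^[m + 1] (point k x z) =
            vec k (ee s n (step s n (x, z)) (2 * 0 + phi (x, z)) m)
              (orb s n (step s n (x, z)) m) := by
          rw [Function.iterate_succ_apply, point_eq]
          have h1 := act_vec (F := k) k s n 0 (x, z)
          have h2 := iterate_vec (F := k) k s n (2 * 0 + phi (x, z)) (step s n (x, z)) m
          simp only [Algebra.algebraMap_self, RingHom.id_apply] at h1 h2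
          rw [h1, h2]
        rw [e1, hstep, orb_C]
        have h3 := height_vec0 (F := k) (k := k)
          (ee s n (Polynomial.C c, 0) (2 * 0 + phi (x, z)) m) (c ^ 2 ^ m) (pow_ne_zero _ hc)
        have h4 : weilHeight k (RatFunc k) (vec k (ee s n (Polynomial.C c, 0)
            (2 * 0 + phi (x, z)) m) (Polynomial.C (c ^ 2 ^ m), 0)) = 0 := h3
        rw [h4, zero_div]
      · constructor
        · intro _
          rcases h0 with h | h
          · exact Or.inl h
          · exact Or.inr (Or.inl h)
        · intro _
          exact ⟨0, by simp⟩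
    · push Not at h0
      obtain ⟨L, hL, h1, h2⟩ := main (F := k) k s n hn x z hxz h0.1 h0.2
      simp only [Algebra.algebraMap_self, RingHom.id_apply] at hL
      refine ⟨L, hL, ?_⟩
      have hset : {m : ℕ | ReducesToInfinity k ((act (quad k s n))^[m] (point k x z))} =
          {m : ℕ | phi (orb s n (x, z) m) = 1} := by
        ext m
        simp only [Set.mem_setOf_eq]
        have e2 := iterate_vec (F := k) k s n 0 (x, z) m
        simp only [Algebra.algebraMap_self, RingHom.id_apply] at e2
        rw [point_eq, e2]
        exact reduces_iff k _ _ (orb_coprime s n hn (x, z) hxz m)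
      rw [hset]
      have hfin : {m : ℕ | phi (orb s n (x, z) m) = 1}.Finite ↔
          ¬ ∀ m, ∃ j, phi (orb s n (x, z) (m + j)) = 1 := by
        constructor
        · intro hf hall
          obtain ⟨B, hB⟩ := hf.bddAbove
          obtain ⟨j, hj⟩ := hall (B + 1)
          have h3 : B + 1 + j ≤ B := hB hj
          omega
        · intro hall
          push Not at hall
          obtain ⟨N, hN⟩ := hall
          refine (Set.finite_lt_nat N).subset ?_
          intro m hm
          simp only [Set.mem_setOf_eq] at hm ⊢
          by_contra hcon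
          push Not at hcon
          exact hN (m - N) (by rw [Nat.add_sub_cancel' hcon]; exact hm)
      rw [hfin, ← h2]
      unfold Irrational
      rw [not_not]
      constructor
      · rintro ⟨q, hq⟩
        exact Or.inr (Or.inr ⟨q, hq⟩)
      · rintro (h | h | ⟨q, hq⟩)
        · exact absurd h h0.1
        · exact absurd h h0.2
        · exact ⟨q, hq⟩
  · intro F _ _
    have : Fintype F := Fintype.ofFinite F
    obtain ⟨s, n, hn, hM⟩ := exists_transitive F
    refine ⟨s, n, hn, ?_⟩
    intro k _ _ _ x z hxz hx hz
    obtain ⟨L, hL, h1, -⟩ := main k s n hn x z hxz hx hz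
    exact ⟨L, hL, h1.mpr (fun m => visits s n hM hn (x, z) hxz m)⟩

end Pool.Agent.Results.MP_2ab887_nt.CriterionQuadraticFamily
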